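import Pool.Agent.Helper89.HY.St

/-!
# Project HY, module KM: second moment of Kloosterman sums
-/

set_option autoImplicit false

namespace Pool.Agent.Helper97.HY

open Finset Pool.Agent.Helper89.HY

section

variable {p : ℕ} [Fact p.Prime]

private lemma ad_norm (x : ZMod p) : ‖ad p x‖ = 1 := AddChar.norm_apply _ x

private lemma ad_add (x y : ZMod p) : ad p (x + y) = ad p x * ad p y := AddChar.map_add_eq_mul _ x y

private lemma ad_zero : ad p (0 : ZMod p) = 1 := AddChar.map_zero_eq_one _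

private lemma ad_conj (x : ZMod p) : (starRingEnd ℂ) (ad p x) = ad p (-x) :=
  (AddChar.map_neg_eq_conj _ x).symm

private lemma sum_ad (b : ZMod p) : ∑ x : ZMod p, ad p (x * b) = if b = 0 then (p : ℂ) else 0 := by
  have h := AddChar.sum_mulShift b (ZMod.isPrimitive_stdAddChar p)
  rw [ZMod.card] at h
  unfold ad
  rw [h]
  split_ifs <;> simp

private lemma inner (A B n u : ZMod p) (hu : u ≠ 0) :
    (∑ v : ZMod p, if u * v = n then ad p (A * u + B * v) else 0) = ad p (A * u + B * (n * u⁻¹)) := by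
  rw [Finset.sum_eq_single (n * u⁻¹)]
  · rw [if_pos]
    rw [mul_comm n, ← mul_assoc, mul_inv_cancel₀ hu, one_mul]
  · intro v _ hv
    rw [if_neg]
    intro h
    apply hv
    rw [← h, mul_comm u v, mul_assoc, mul_inv_cancel₀ hu, mul_one]
  · intro h
    exact absurd (Finset.mem_univ _) h

private lemma KS_ne (A B n : ZMod p) (hn : n ≠ 0) :
    KS p A B n = ∑ u ∈ univ.erase (0 : ZMod p), ad p (A * u + B * (n * u⁻¹)) := by
  unfold KS
  rw [← Finset.sum_erase univ (a := (0 : ZMod p))]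
  · exact Finset.sum_congr rfl fun u hu => inner A B n u (Finset.ne_of_mem_erase hu)
  · refine Finset.sum_eq_zero fun v _ => ?_
    rw [if_neg]
    rw [zero_mul]
    exact hn.symm

private lemma KS_le (A B n : ZMod p) : ‖KS p A B n‖ ≤ 2 * p := by
  unfold KS
  have h1 : ∀ u : ZMod p, ‖∑ v : ZMod p, (if u * v = n then ad p (A * u + B * v) else 0 : ℂ)‖ ≤
      1 + if u = 0 then (p : ℝ) else 0 := by
    intro u
    split_ifs with hu
    · refine (norm_sum_le _ _).trans ?_
      have h2 : ∑ v : ZMod p, ‖(if u * v = n then ad p (A * u + B * v) else 0 : ℂ)‖ ≤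
          ∑ v : ZMod p, (1 : ℝ) := by
        refine Finset.sum_le_sum fun v _ => ?_
        split_ifs
        · rw [ad_norm]
        · rw [norm_zero]
          exact zero_le_one
      rw [Finset.sum_const, card_univ, ZMod.card, nsmul_eq_mul, mul_one] at h2
      linarith
    · rw [add_zero, inner A B n u hu, ad_norm]
  refine (norm_sum_le _ _).trans ((Finset.sum_le_sum fun u _ => h1 u).trans ?_)
  rw [Finset.sum_add_distrib, Finset.sum_const, card_univ, ZMod.card, Finset.sum_ite_eq' univ (0 : ZMod p),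
    if_pos (mem_univ _), nsmul_eq_mul, mul_one]
  linarith

private lemma sum_erase_ad (k : ZMod p) (hk : k ≠ 0) : ∑ u ∈ univ.erase (0 : ZMod p), ad p (k * u) = -1 := by
  have h := sum_ad k
  rw [if_neg hk, ← Finset.add_sum_erase univ _ (mem_univ (0 : ZMod p)), zero_mul, ad_zero] at h
  have h2 : ∑ u ∈ univ.erase (0 : ZMod p), ad p (k * u) = ∑ x ∈ univ.erase (0 : ZMod p), ad p (x * k) :=
    Finset.sum_congr rfl fun u _ => by rw [mul_comm]
  rw [h2]
  linear_combination h

private lemma sum_erase_inv (k : ZMod p) (hk : k ≠ 0) :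
    ∑ u ∈ univ.erase (0 : ZMod p), ad p (k * u⁻¹) = -1 := by
  rw [← sum_erase_ad k hk]
  refine Finset.sum_nbij' (fun u => u⁻¹) (fun u => u⁻¹) ?_ ?_ ?_ ?_ ?_
  · intro u hu
    exact Finset.mem_erase.2 ⟨inv_ne_zero (Finset.ne_of_mem_erase hu), mem_univ _⟩
  · intro u hu
    exact Finset.mem_erase.2 ⟨inv_ne_zero (Finset.ne_of_mem_erase hu), mem_univ _⟩
  · intro u _
    exact inv_inv u
  · intro u _
    exact inv_inv u
  · intro u _
    rfl

/-- Kloosterman sums -/
private noncomputable def Kl (y : ZMod p) : ℂ := ∑ t ∈ univ.erase (0 : ZMod p), ad p (t + y * t⁻¹)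

private lemma KS_Kl (A B n : ZMod p) (hA : A ≠ 0) (hn : n ≠ 0) : KS p A B n = Kl (A * B * n) := by
  rw [KS_ne A B n hn]
  unfold Kl
  refine Finset.sum_nbij' (fun u => A * u) (fun t => A⁻¹ * t) ?_ ?_ ?_ ?_ ?_
  · intro u hu
    exact Finset.mem_erase.2 ⟨mul_ne_zero hA (Finset.ne_of_mem_erase hu), mem_univ _⟩
  · intro u hu
    exact Finset.mem_erase.2 ⟨mul_ne_zero (inv_ne_zero hA) (Finset.ne_of_mem_erase hu), mem_univ _⟩
  · intro u _
    change A⁻¹ * (A * u) = u
    rw [← mul_assoc, inv_mul_cancel₀ hA, one_mul]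
  · intro u _
    change A * (A⁻¹ * u) = u
    rw [← mul_assoc, mul_inv_cancel₀ hA, one_mul]
  · intro u hu
    have hu0 : u ≠ 0 := Finset.ne_of_mem_erase hu
    congr 1
    field_simp

private lemma sum_Kl : ∑ y : ZMod p, ‖(Kl y : ℂ)‖ ^ 2 ≤ (p : ℝ) ^ 2 := by
  have h : ((∑ y : ZMod p, ‖(Kl y : ℂ)‖ ^ 2 : ℝ) : ℂ) = (p : ℂ) * ((univ.erase (0 : ZMod p)).card : ℂ) := by
    push_cast
    have h1 : ∀ y : ZMod p, ((‖(Kl y : ℂ)‖ : ℂ)) ^ 2 = ∑ t ∈ univ.erase (0 : ZMod p),
        ∑ s ∈ univ.erase (0 : ZMod p), ad p (t - s) * ad p (y * (t⁻¹ - s⁻¹)) := by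
      intro y
      rw [← Complex.mul_conj']
      unfold Kl
      rw [map_sum, Finset.sum_mul_sum]
      refine Finset.sum_congr rfl fun t _ => Finset.sum_congr rfl fun s _ => ?_
      rw [ad_conj, ← ad_add, ← ad_add]
      congr 1
      ring
    rw [Finset.sum_congr rfl fun y _ => h1 y, Finset.sum_comm]
    have h2 : ∀ t ∈ univ.erase (0 : ZMod p), ∑ y : ZMod p, ∑ s ∈ univ.erase (0 : ZMod p),
        ad p (t - s) * ad p (y * (t⁻¹ - s⁻¹)) = (p : ℂ) := by
      intro t ht
      rw [Finset.sum_comm]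
      have h3 : ∀ s ∈ univ.erase (0 : ZMod p), ∑ y : ZMod p, ad p (t - s) * ad p (y * (t⁻¹ - s⁻¹)) =
          if t = s then (p : ℂ) else 0 := by
        intro s _
        rw [← Finset.mul_sum, sum_ad]
        by_cases hts : t = s
        · rw [if_pos hts, if_pos (by rw [hts, sub_self]), hts, sub_self, ad_zero, one_mul]
        · rw [if_neg hts, if_neg (fun h4 => hts (inv_injective (sub_eq_zero.1 h4))), mul_zero]
      rw [Finset.sum_congr rfl h3, Finset.sum_ite_eq, if_pos ht]
    rw [Finset.sum_congr rfl h2, Finset.sum_const, nsmul_eq_mul, mul_comm]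
  have h4 : (∑ y : ZMod p, ‖(Kl y : ℂ)‖ ^ 2 : ℝ) = (p : ℝ) * ((univ.erase (0 : ZMod p)).card : ℝ) := by
    exact_mod_cast h
  rw [h4, pow_two]
  refine mul_le_mul_of_nonneg_left ?_ (Nat.cast_nonneg _)
  have h5 : (univ.erase (0 : ZMod p)).card ≤ p := by
    refine (Finset.card_le_univ _).trans ?_
    rw [ZMod.card]
  exact_mod_cast h5

/-- a linear form vanishes at most once -/
private lemma one_root (a b : ZMod p) :
    ((univ.erase (0 : ZMod p)).filter fun c => (a ≠ 0 ∨ b ≠ 0) ∧ a + b / c = 0).card ≤ 1 := by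
  rw [Finset.card_le_one]
  intro c hc d hd
  rw [Finset.mem_filter] at hc hd
  have hc0 : c ≠ 0 := Finset.ne_of_mem_erase hc.1
  have hd0 : d ≠ 0 := Finset.ne_of_mem_erase hd.1
  have h1 : a * c + b = 0 := by
    have := hc.2.2
    field_simp at this
    linear_combination this
  have h2 : a * d + b = 0 := by
    have := hd.2.2
    field_simp at this
    linear_combination this
  have ha : a ≠ 0 := by
    intro ha
    rw [ha, zero_mul, zero_add] at h1
    rcases hc.2.1 with h | h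
    · exact h ha
    · exact h h1
  have h3 : a * (c - d) = 0 := by linear_combination h1 - h2
  rcases mul_eq_zero.1 h3 with h | h
  · exact absurd h ha
  · exact sub_eq_zero.1 h

/-- a value is taken at most three times -/
private lemma three_roots (m1 m2 m3 m4 y : ZMod p) (hy : y ≠ 0) :
    ((univ.erase (0 : ZMod p)).filter fun c => (m2 + m4 / c) * (m3 + m1 / c) * (1 + c) = y).card ≤ 3 := by
  classical
  let P : Polynomial (ZMod p) := (Polynomial.C m2 * Polynomial.X + Polynomial.C m4) *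
    (Polynomial.C m3 * Polynomial.X + Polynomial.C m1) * (1 + Polynomial.X) - Polynomial.C y * Polynomial.X ^ 2
  have hev : ∀ c : ZMod p, P.eval c = (m2 * c + m4) * (m3 * c + m1) * (1 + c) - y * c ^ 2 := by
    intro c
    simp [P]
  have hP : P ≠ 0 := by
    intro h
    have h1 := hev (-1)
    rw [h, Polynomial.eval_zero] at h1
    apply hy
    linear_combination h1
  have hdeg : P.natDegree ≤ 3 := by
    have e1 : (Polynomial.C m2 * Polynomial.X + Polynomial.C m4).natDegree ≤ 1 := Polynomial.natDegree_linear_le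
    have e2 : (Polynomial.C m3 * Polynomial.X + Polynomial.C m1).natDegree ≤ 1 := Polynomial.natDegree_linear_le
    have e3 : (1 + Polynomial.X : Polynomial (ZMod p)).natDegree ≤ 1 := by
      refine (Polynomial.natDegree_add_le _ _).trans ?_
      rw [Polynomial.natDegree_one, Polynomial.natDegree_X]
      exact le_of_eq (by norm_num)
    refine (Polynomial.natDegree_sub_le _ _).trans (max_le ?_ ?_)
    · refine (Polynomial.natDegree_mul_le).trans ?_
      have := Polynomial.natDegree_mul_le (p := Polynomial.C m2 * Polynomial.X + Polynomial.C m4)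
        (q := Polynomial.C m3 * Polynomial.X + Polynomial.C m1)
      omega
    · refine (Polynomial.natDegree_C_mul_X_pow_le y 2).trans (by norm_num)
  have hsub : ((univ.erase (0 : ZMod p)).filter fun c => (m2 + m4 / c) * (m3 + m1 / c) * (1 + c) = y) ⊆
      P.roots.toFinset := by
    intro c hc
    rw [Finset.mem_filter] at hc
    have hc0 : c ≠ 0 := Finset.ne_of_mem_erase hc.1
    rw [Multiset.mem_toFinset, Polynomial.mem_roots hP, Polynomial.IsRoot.def, hev, ← hc.2]
    field_simp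
    ring
  exact (Finset.card_le_card hsub).trans ((Multiset.toFinset_card_le _).trans ((Polynomial.card_roots' P).trans hdeg))

end

/-- Module KM. -/
theorem hKM : StKM := by
  intro p _ m1 m2 m3 m4 hm
  classical
  set S := univ.erase (0 : ZMod p) with hS
  have hp1 : (1 : ℝ) ≤ p := by exact_mod_cast (Fact.out : p.Prime).one_le
  set A : ZMod p → ZMod p := fun c => m2 + m4 / c with hA
  set B : ZMod p → ZMod p := fun c => m3 + m1 / c with hB
  -- the pointwise bound
  have hpt : ∀ c ∈ S, ‖KS p (m2 + m4 / c) (m3 + m1 / c) (1 + c)‖ ^ 2 ≤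
      (if c = -1 then 4 * (p : ℝ) ^ 2 else 0) +
      (if (m2 ≠ 0 ∨ m4 ≠ 0) ∧ m2 + m4 / c = 0 then 4 * (p : ℝ) ^ 2 else 0) +
      (if (m3 ≠ 0 ∨ m1 ≠ 0) ∧ m3 + m1 / c = 0 then 4 * (p : ℝ) ^ 2 else 0) + 1 +
      (if A c * B c * (1 + c) ≠ 0 then ‖(Kl (A c * B c * (1 + c)) : ℂ)‖ ^ 2 else 0) := by
    intro c hc
    have hc0 : c ≠ 0 := Finset.ne_of_mem_erase hc
    have htriv : ‖KS p (m2 + m4 / c) (m3 + m1 / c) (1 + c)‖ ^ 2 ≤ 4 * (p : ℝ) ^ 2 := by
      have h1 := KS_le (m2 + m4 / c) (m3 + m1 / c) (1 + c)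
      have h2 := norm_nonneg (KS p (m2 + m4 / c) (m3 + m1 / c) (1 + c))
      nlinarith
    have n1 : (0 : ℝ) ≤ if c = -1 then 4 * (p : ℝ) ^ 2 else 0 := by split_ifs <;> positivity
    have n2 : (0 : ℝ) ≤ if (m2 ≠ 0 ∨ m4 ≠ 0) ∧ m2 + m4 / c = 0 then 4 * (p : ℝ) ^ 2 else 0 := by
      split_ifs <;> positivity
    have n3 : (0 : ℝ) ≤ if (m3 ≠ 0 ∨ m1 ≠ 0) ∧ m3 + m1 / c = 0 then 4 * (p : ℝ) ^ 2 else 0 := by
      split_ifs <;> positivity
    have n4 : (0 : ℝ) ≤ if A c * B c * (1 + c) ≠ 0 then ‖(Kl (A c * B c * (1 + c)) : ℂ)‖ ^ 2 else 0 := by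
      split_ifs <;> positivity
    by_cases h1 : c = -1
    · rw [if_pos h1]
      linarith
    by_cases h2 : (m2 ≠ 0 ∨ m4 ≠ 0) ∧ m2 + m4 / c = 0
    · rw [if_pos h2]
      linarith
    by_cases h3 : (m3 ≠ 0 ∨ m1 ≠ 0) ∧ m3 + m1 / c = 0
    · rw [if_pos h3]
      linarith
    have hn : 1 + c ≠ 0 := by
      intro h
      apply h1
      linear_combination h
    by_cases hA0 : m2 + m4 / c = 0
    · -- the first coefficient vanishes
      have hB0 : m3 + m1 / c ≠ 0 := by
        intro hB0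
        have e1 : m2 = 0 ∧ m4 = 0 := by
          by_contra h
          exact h2 ⟨by tauto, hA0⟩
        have e2 : m3 = 0 ∧ m1 = 0 := by
          by_contra h
          exact h3 ⟨by tauto, hB0⟩
        rcases hm with h | h | h | h
        · exact h e2.2
        · exact h e1.1
        · exact h e2.1
        · exact h e1.2
      have hk : KS p (m2 + m4 / c) (m3 + m1 / c) (1 + c) = -1 := by
        rw [KS_ne _ _ _ hn, ← sum_erase_inv ((m3 + m1 / c) * (1 + c)) (mul_ne_zero hB0 hn), hA0]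
        refine Finset.sum_congr rfl fun u _ => ?_
        congr 1
        ring
      rw [hk, norm_neg, norm_one, one_pow]
      linarith
    by_cases hB0 : m3 + m1 / c = 0
    · have hk : KS p (m2 + m4 / c) (m3 + m1 / c) (1 + c) = -1 := by
        rw [KS_ne _ _ _ hn, ← sum_erase_ad (m2 + m4 / c) hA0, hB0]
        refine Finset.sum_congr rfl fun u _ => ?_
        congr 1
        ring
      rw [hk, norm_neg, norm_one, one_pow]
      linarith
    have hk : KS p (m2 + m4 / c) (m3 + m1 / c) (1 + c) = Kl (A c * B c * (1 + c)) :=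
      KS_Kl _ _ _ hA0 hn
    have hne : A c * B c * (1 + c) ≠ 0 := mul_ne_zero (mul_ne_zero hA0 hB0) hn
    rw [hk, if_pos hne]
    linarith
  refine (Finset.sum_le_sum hpt).trans ?_
  rw [Finset.sum_add_distrib, Finset.sum_add_distrib, Finset.sum_add_distrib, Finset.sum_add_distrib]
  have hcount : ∀ (Q : ZMod p → Prop) [DecidablePred Q], (S.filter Q).card ≤ 1 →
      ∑ c ∈ S, (if Q c then 4 * (p : ℝ) ^ 2 else 0) ≤ 4 * (p : ℝ) ^ 2 := by
    intro Q _ hQ
    rw [← Finset.sum_filter, Finset.sum_const, nsmul_eq_mul]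
    have h1 : ((S.filter Q).card : ℝ) ≤ 1 := by exact_mod_cast hQ
    nlinarith [sq_nonneg (p : ℝ)]
  have s1 : ∑ c ∈ S, (if c = -1 then 4 * (p : ℝ) ^ 2 else 0) ≤ 4 * (p : ℝ) ^ 2 := by
    refine hcount _ ?_
    rw [Finset.card_le_one]
    intro a ha b hb
    rw [(Finset.mem_filter.1 ha).2, (Finset.mem_filter.1 hb).2]
  have s2 := hcount (fun c => (m2 ≠ 0 ∨ m4 ≠ 0) ∧ m2 + m4 / c = 0) (one_root m2 m4)
  have s3 := hcount (fun c => (m3 ≠ 0 ∨ m1 ≠ 0) ∧ m3 + m1 / c = 0) (one_root m3 m1)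
  have s4 : ∑ _c ∈ S, (1 : ℝ) ≤ (p : ℝ) ^ 2 := by
    rw [Finset.sum_const, nsmul_eq_mul, mul_one]
    have h5 : S.card ≤ p := by
      refine (Finset.card_le_univ _).trans ?_
      rw [ZMod.card]
    have h6 : (S.card : ℝ) ≤ p := by exact_mod_cast h5
    nlinarith
  have s5 : ∑ c ∈ S, (if A c * B c * (1 + c) ≠ 0 then ‖(Kl (A c * B c * (1 + c)) : ℂ)‖ ^ 2 else 0) ≤
      3 * (p : ℝ) ^ 2 := by
    have h1 : ∑ c ∈ S, (if A c * B c * (1 + c) ≠ 0 then ‖(Kl (A c * B c * (1 + c)) : ℂ)‖ ^ 2 else 0) =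
        ∑ y : ZMod p, ∑ c ∈ S with A c * B c * (1 + c) = y,
          (if A c * B c * (1 + c) ≠ 0 then ‖(Kl (A c * B c * (1 + c)) : ℂ)‖ ^ 2 else 0) :=
      (Finset.sum_fiberwise S (fun c => A c * B c * (1 + c)) _).symm
    rw [h1]
    have h2 : ∀ y ∈ (univ : Finset (ZMod p)), ∑ c ∈ S with A c * B c * (1 + c) = y,
          (if A c * B c * (1 + c) ≠ 0 then ‖(Kl (A c * B c * (1 + c)) : ℂ)‖ ^ 2 else 0) ≤
        3 * ‖(Kl y : ℂ)‖ ^ 2 := by
      intro y _
      by_cases hy : y = 0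
      · refine le_trans (le_of_eq (Finset.sum_eq_zero fun c hc => ?_)) (by positivity)
        rw [if_neg]
        rw [(Finset.mem_filter.1 hc).2, hy]
        simp
      · have h3 : ∑ c ∈ S with A c * B c * (1 + c) = y,
            (if A c * B c * (1 + c) ≠ 0 then ‖(Kl (A c * B c * (1 + c)) : ℂ)‖ ^ 2 else 0) =
            ∑ c ∈ S with A c * B c * (1 + c) = y, ‖(Kl y : ℂ)‖ ^ 2 := by
          refine Finset.sum_congr rfl fun c hc => ?_
          rw [(Finset.mem_filter.1 hc).2, if_pos hy]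
        rw [h3, Finset.sum_const, nsmul_eq_mul]
        have h4 : ((S.filter fun c => A c * B c * (1 + c) = y).card : ℝ) ≤ 3 := by
          exact_mod_cast three_roots m1 m2 m3 m4 y hy
        exact mul_le_mul_of_nonneg_right h4 (by positivity)
    refine (Finset.sum_le_sum h2).trans ?_
    rw [← Finset.mul_sum]
    have := sum_Kl (p := p)
    linarith
  linarith

end Pool.Agent.Helper97.HY
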