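import Pool.Agent.Helper89.HY.St2

/-!
# HY2, module BDN: the bound for all squarefree moduli
-/

set_option autoImplicit false

noncomputable section

namespace Pool.Agent.Helper97.HY

open Finset
open Pool.Agent.Helper56.SW (τ)
open Pool.Agent.Helper89.HY

lemma bd_one : Bd 1 := by
  intro ψ _ γ _ m
  have hτ : τ 1 = 1 := by simp [τ]
  have hA : An 1 m = 1 := by
    unfold An
    rw [Finset.filter_true_of_mem (fun b _ i => Subsingleton.elim _ _)]
    simp
  rw [hτ, hA]
  calc ‖∑ x ∈ Vn 1 γ, ψ (∑ i, m i * x i)‖ ≤ ∑ x ∈ Vn 1 γ, ‖ψ (∑ i, m i * x i)‖ := norm_sum_le _ _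
    _ = ∑ x ∈ Vn 1 γ, (1 : ℝ) := by
        refine Finset.sum_congr rfl (fun x _ => ?_)
        exact AddChar.norm_apply ψ _
    _ = ((Vn 1 γ).card : ℝ) := by simp
    _ ≤ 1 := by
        have : (Vn 1 γ).card ≤ 1 := by
          refine (Finset.card_le_univ _).trans ?_
          have : Subsingleton (Fin 6 → ZMod 1) := inferInstance
          exact Fintype.card_le_one_iff_subsingleton.mpr this
        exact_mod_cast this
    _ = (1 : ℝ) ^ 5 * ((1 : ℕ) : ℝ) ^ 2 * ((1 : ℕ) : ℝ) := by norm_num

theorem hBDN (h1 : StLPR) (h2 : StCRT) : StBDN := by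
  have key : ∀ n : ℕ, ∀ [NeZero n], Squarefree n → Bd n := by
    intro n
    induction n using Nat.recOnPosPrimePosCoprime with
    | zero => intro h _; exact absurd rfl h.out
    | one => intro _ _; exact bd_one
    | prime_pow p k hp hk =>
        intro _ hs
        have hk1 : k = 1 := by
          by_contra hne
          have h2k : 2 ≤ k := by omega
          have hd : p * p ∣ p ^ k := by
            rw [← pow_two]
            exact pow_dvd_pow p h2k
          exact hp.one_lt.ne' (Nat.isUnit_iff.mp (hs p hd))
        haveI : Fact p.Prime := ⟨hp⟩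
        have gen : ∀ q : ℕ, q = p → ∀ [NeZero q], Bd q := by
          rintro q rfl _
          exact h1 q
        exact gen (p ^ k) (by rw [hk1, pow_one])
    | coprime a b ha hb hab iha ihb =>
        intro _ hs
        haveI : NeZero a := ⟨by omega⟩
        haveI : NeZero b := ⟨by omega⟩
        have hsa : Squarefree a := hs.squarefree_of_dvd (Dvd.intro b rfl)
        have hsb : Squarefree b := hs.squarefree_of_dvd (Dvd.intro_left a rfl)
        exact h2 a b hab (iha hsa) (ihb hsb)
  intro n _ hs
  exact key n hs

end Pool.Agent.Helper97.HY
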